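import Pool.Agent.Helper9.PC.Cor

set_option autoImplicit false

/-!
# Accessory parameters with few bad primes and the defects of the Weyl inequalities

Let `L_q = L_0 + q r_1 + ⋯ + q ^ (d + 1) r_(d+1)` be a family of Fuchsian operators of order `n`
over `ℚ` with `m` finite singular points whose parameter `q` is accessory: the singular points and
the local exponents, which are rational with the common denominator `N`, do not depend on `q`.

For a residue class `v` of `(ℤ/N)ˣ` the exponents satisfy certain inequalities (the Weyl
inequalities of the library) if the reductions of one member of the family have a full basis of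
rational solutions for infinitely many primes `p` with `v p ≡ -1`.  If such an inequality fails, no
member of the family can be a counterexample.  Here the inequalities may hold: we show that
already a small *defect* `δ v` of an inequality forces the good parameters to be rare.

* Modulo a prime `p` with `v p ≡ -1` at most `(d + 1)(δ v p + M)` classes of parameters `q` give a
  full basis: if `q` does, the operator has a polynomial solution which is divisible by a given
  polynomial `P` and has degree less than `deg P + δ v p + M`; these solutions lie in a space of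
  dimension at most `δ v p + M`, and the solutions for different `q` are independent, up to the
  factor `d + 1`, since they are eigenvectors for different eigenvalues (if `d = 0`).
* Gallagher's larger sieve, for rational numbers `q` and with weights which depend on the residue
  class of `p`, then gives the exponent
  `(1 + η)(d + 1) H`, where `H` is the harmonic mean of the defects.
* In order two the defect is computed: it is at most
  `(∑_P ‖v D_P‖) / 2 - max_P ‖v D_P‖`, the sum being over all singular points, where `D_P` is the
  difference of the exponents at `P`.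
* For four singular points with `D_P ≡ ± y, ± y, ± z, ± z`, the case in which all the Weyl
  inequalities hold, this gives `δ v = ‖v y‖`, and the harmonic mean of these numbers tends to `0`
  like `1 / log (den y)`.
-/

open Polynomial Finset

namespace Pool.Agent.Results.MP_aa40d3_nt.ParametersAndWeylDefects

open Pool.Agent.Helper9.PC
open Pool.Agent.W432.HK (FuchsianWith CommonDen)

/-- Families `L_q = L_0 + q r_1 + ⋯ + q ^ (d + 1) r_(d+1)` of Fuchsian operators with rational
exponents and an accessory parameter `q`.

(1) Let the order `n` be arbitrary, `N` a common denominator of the exponents, and for each class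
`v` in `(ℤ/N)ˣ` let `δ v > 0` be a bound for the defect of some Weyl inequality in the class `v`.
If `(1 + η)(d + 1) H < θ`, where `H = φ(N) / ∑ 1 / δ v` is the harmonic mean, then at most
`C X ^ θ` parameters `q = u / v` with `|u| ≤ X`, `0 < v ≤ X ^ η` have few bad primes.

(2) In order two `δ v` may be any positive number that is at least
`(∑_P ‖v D_P‖) / 2 - ‖v D_Q‖` for some singular point `Q = Q(v)`; the sum is over all singular
points `P`, including infinity, and `D_P` is the difference of the exponents at `P`.

(3) Let there be three finite singular points and order two (Heun operators), and let the four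
differences `D_P` be, in some order, `± y, ± y, ± z, ± z` modulo `ℤ`. If
`(1 + η)(d + 1) < 2 θ (1 + 1/2 + ⋯ + 1/K)`, where `K` is the integral part of `(den y - 1) / 2`,
then at most `C X ^ θ` parameters `q` as in (1) have few bad primes. So the exponent `θ` can be
taken arbitrarily small if the denominator of `y` is large. -/
theorem result :
    (∀ (m n d N : ℕ) [NeZero N] (b : Fin (n + 1) → ℤ[X]) (α : Fin m → AlgebraicClosure ℚ)
      (lam : Fin m → Fin n → ℚ) (phi : Fin n → ℚ) (r : Fin (d + 1) → ℤ[X])
      (δ : (ZMod N)ˣ → ℝ) (η θ : ℝ), 0 < m → 0 < n →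
      FuchsianWith b α lam phi → CommonDen lam phi N → Accessory b α r →
      (∀ v, 0 < δ v) → (∀ v, DefectLE lam phi v (δ v)) →
      0 ≤ η → (1 + η) * ((d : ℝ) + 1) * N.totient < θ * ∑ v : (ZMod N)ˣ, 1 / δ v →
      Sparse b r η θ) ∧
    (∀ (m d N : ℕ) [NeZero N] (b : Fin (2 + 1) → ℤ[X]) (α : Fin m → AlgebraicClosure ℚ)
      (lam : Fin m → Fin 2 → ℚ) (phi : Fin 2 → ℚ) (r : Fin (d + 1) → ℤ[X])
      (δ : (ZMod N)ˣ → ℝ) (η θ : ℝ), 0 < m →
      FuchsianWith b α lam phi → CommonDen lam phi N → Accessory b α r →
      (∀ v, 0 < δ v) →
      (∀ v : (ZMod N)ˣ, ∃ Q : Option (Fin m),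
        (((∑ P, nint (((v : ZMod N).val : ℚ) * expDiff lam phi P)) / 2 -
          nint (((v : ZMod N).val : ℚ) * expDiff lam phi Q) : ℚ) : ℝ) ≤ δ v) →
      0 ≤ η → (1 + η) * ((d : ℝ) + 1) * N.totient < θ * ∑ v : (ZMod N)ˣ, 1 / δ v →
      Sparse b r η θ) ∧
    (∀ (d : ℕ) (b : Fin (2 + 1) → ℤ[X]) (α : Fin 3 → AlgebraicClosure ℚ)
      (lam : Fin 3 → Fin 2 → ℚ) (phi : Fin 2 → ℚ) (r : Fin (d + 1) → ℤ[X])
      (σ : Fin 4 ≃ Option (Fin 3)) (η θ : ℝ),
      FuchsianWith b α lam phi → Accessory b α r →
      (∃ z : ℤ, expDiff lam phi (σ 1) = expDiff lam phi (σ 0) + z ∨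
        expDiff lam phi (σ 1) = -expDiff lam phi (σ 0) + z) →
      (∃ z : ℤ, expDiff lam phi (σ 3) = expDiff lam phi (σ 2) + z ∨
        expDiff lam phi (σ 3) = -expDiff lam phi (σ 2) + z) →
      0 ≤ η →
      (1 + η) * ((d : ℝ) + 1) <
        2 * θ * (harmonic (((expDiff lam phi (σ 0)).den - 1) / 2) : ℚ) →
      Sparse b r η θ) := by
  refine ⟨?_, ?_, ?_⟩
  · intro m n d N _ b α lam phi r δ η θ hm hn hF hN hr hδ hdef hη hθ
    refine sparse_of hη ?_ (main hm hn hF hN hr hδ hdef hη hθ)
    exact (theta_pos hδ hη hθ).le
  · intro m d N _ b α lam phi r δ η θ hm hF hN hr hδ hdef hη hθ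
    refine sparse_of hη ?_ (main_two hm hF hN hr hδ hdef hη hθ)
    exact (theta_pos hδ hη hθ).le
  · intro d b α lam phi r σ η θ hF hr h1 h2 hη hθ
    refine sparse_of hη ?_ (main_heun hF hr σ h1 h2 hη hθ)
    by_contra h
    push Not at h
    have h5 : (0 : ℝ) ≤ ((harmonic (((expDiff lam phi (σ 0)).den - 1) / 2) : ℚ) : ℝ) := by
      have : (0 : ℚ) ≤ harmonic (((expDiff lam phi (σ 0)).den - 1) / 2) := by
        rw [harmonic_eq_sum_Icc]
        exact sum_nonneg fun k _ => inv_nonneg.2 (Nat.cast_nonneg k)
      exact_mod_cast this
    have h6 : 2 * θ * ((harmonic (((expDiff lam phi (σ 0)).den - 1) / 2) : ℚ) : ℝ) ≤ 0 :=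
      mul_nonpos_of_nonpos_of_nonneg (by linarith) h5
    have hpos : 0 < (1 + η) * ((d : ℝ) + 1) := by positivity
    linarith

end Pool.Agent.Results.MP_aa40d3_nt.ParametersAndWeylDefects
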